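import Pool.Agent.Helper33.QB.LimDefs

/-!
# Project QB, module J3: the ring of the limit semi-condition
-/

set_option autoImplicit false

namespace Pool.Agent.Helper33.QB

open Set

universe v

variable {Ω : Type} {I : Type v} {α : Ordinal.{0}}

section J3

variable {pn : ℕ → Cnd Ω I} {p : Cnd Ω I} {xn : ℕ → Ω} {pt : ℕ → FreeGroup I → Ω}
  {K : ℕ → FreeGroup I → Set Ω} {ν : FreeGroup I → Ω}

theorem h64_mono (h : LimSet α pn p xn pt) : Monotone fun n => (pn n).Y :=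
  monotone_nat_of_le_succ fun n => (h.le n).cp.sub

theorem h64_sub (h : LimSet α pn p xn pt) (n : ℕ) : (pn n).Y ⊆ p.Y := (h.un.le n).cp.sub

theorem h64_ring (h : LimSet α pn p xn pt) (n : ℕ) {O : Set Ω} :
    O ∈ (pn n).R ↔ O ∈ p.R ∧ O ⊆ (pn n).Y := (h.un.le n).cp.ring O

theorem h64_itv_sub (h : LimSet α pn p xn pt) (n : ℕ) : Itv pn n ⊆ p.Y :=
  fun _ hx => h64_sub h (n + 1) hx.1

theorem h64_itv_disj (h : LimSet α pn p xn pt) {m k : ℕ} {x : Ω} (hm : x ∈ Itv pn m)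
    (hk : x ∈ (pn k).Y) : m < k := by
  by_contra hcon
  exact hm.2 (h64_mono h (not_lt.1 hcon) hk)

theorem h64_itv_eq (h : LimSet α pn p xn pt) {m k : ℕ} {x : Ω} (hm : x ∈ Itv pn m)
    (hk : x ∈ Itv pn k) : m = k := by
  have h1 := h64_itv_disj h hm hk.1
  have h2 := h64_itv_disj h hk hm.1
  omega

theorem h64_exists_stage (h : LimSet α pn p xn pt) {x : Ω} (hx : x ∈ p.Y) : ∃ n, x ∈ (pn n).Y := by
  rw [h.un.Y] at hx
  exact mem_iUnion.1 hx

/-- the basic neighbourhood -/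
def h64_U (K : ℕ → FreeGroup I → Set Ω) (ν : FreeGroup I → Ω) (n : ℕ) (w : FreeGroup I) : Set Ω :=
  {ν w} ∪ ⋃ m ∈ Ici n, K m w

theorem h64_mem_U {n : ℕ} {w : FreeGroup I} {x : Ω} :
    x ∈ h64_U K ν n w ↔ x = ν w ∨ ∃ m, n ≤ m ∧ x ∈ K m w := by
  simp only [h64_U, mem_union, mem_singleton_iff, mem_iUnion, mem_Ici, exists_prop]

theorem h64_U_itv (h : LimSet α pn p xn pt) (hν' : ∀ w ∈ R0 p xn, ν w ∉ p.Y) {w : FreeGroup I}
    (hw : w ∈ R0 p xn) {N : ℕ} (hN : ∀ n ≥ N, K n w ⊆ Itv pn n) {n m : ℕ} (hn : N ≤ n) :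
    h64_U K ν n w ∩ Itv pn m = if n ≤ m then K m w else ∅ := by
  ext x
  constructor
  · rintro ⟨hx, hm⟩
    rcases h64_mem_U.1 hx with rfl | ⟨k, hk, hxk⟩
    · exact absurd (h64_itv_sub h m hm) (hν' w hw)
    · have := h64_itv_eq h (hN k (hn.trans hk) hxk) hm
      subst this
      rw [if_pos hk]
      exact hxk
  · intro hx
    by_cases hm : n ≤ m
    · rw [if_pos hm] at hx
      exact ⟨h64_mem_U.2 (Or.inr ⟨m, hm, hx⟩), hN m (hn.trans hm) hx⟩
    · rw [if_neg hm] at hx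
      exact absurd hx (notMem_empty x)

theorem h64_set_U (hν : InjOn ν (R0 p xn)) (h : LimSet α pn p xn pt)
    (hν' : ∀ w ∈ R0 p xn, ν w ∉ p.Y) {w : FreeGroup I}
    (hw : w ∈ R0 p xn) {N : ℕ} (hN : ∀ n ≥ N, K n w ⊆ Itv pn n) {n : ℕ} (hn : N ≤ n) :
    {w' | w' ∈ R0 p xn ∧ ν w' ∈ h64_U K ν n w} = {w} := by
  ext w'
  constructor
  · rintro ⟨hw', hm⟩
    rcases h64_mem_U.1 hm with he | ⟨m, hm, hx⟩
    · exact hν hw' hw he
    · exact absurd (h64_itv_sub h m (hN m (hn.trans hm) hx)) (hν' w' hw')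
  · rintro rfl
    exact ⟨hw, h64_mem_U.2 (Or.inl rfl)⟩

/-- The basic neighbourhoods of the new points. -/
theorem h64_limS_nbhd (h : LimSet α pn p xn pt) (hK : EK pn p xn pt K) (hν : InjOn ν (R0 p xn))
    (hν' : ∀ w ∈ R0 p xn, ν w ∉ p.Y) {w : FreeGroup I} (hw : w ∈ R0 p xn) :
    ∃ N : ℕ, ∀ n ≥ N, h64_U K ν n w ∈ (limS pn p xn pt K ν).R := by
  obtain ⟨N, hN⟩ := hK.e1 w hw
  have hN' : ∀ n ≥ N, K n w ⊆ Itv pn n := fun n hn => (hN n hn).2.1
  refine ⟨N, fun n hn => ⟨?_, ?_, ?_, n, ?_⟩⟩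
  · intro x hx
    rcases h64_mem_U.1 hx with rfl | ⟨m, hm, hx⟩
    · exact Or.inr (mem_image_of_mem ν hw)
    · exact Or.inl (h64_itv_sub h m (hN' m (hn.trans hm) hx))
  · refine (finite_singleton (ν w)).subset ?_
    rintro x ⟨hx, hxp⟩
    rcases h64_mem_U.1 hx with rfl | ⟨m, hm, hx⟩
    · exact mem_singleton _
    · exact absurd (h64_itv_sub h m (hN' m (hn.trans hm) hx)) hxp
  · intro m
    induction m with
    | zero =>
      have : h64_U K ν n w ∩ (pn 0).Y = ∅ := by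
        rw [eq_empty_iff_forall_notMem]
        rintro x ⟨hx, h0⟩
        rcases h64_mem_U.1 hx with rfl | ⟨m, hm, hx⟩
        · exact hν' w hw (h64_sub h 0 h0)
        · have := h64_itv_disj h (hN' m (hn.trans hm) hx) h0
          omega
      rw [this]
      exact (h.bn 0).gr.emp
    | succ m ih =>
      have : h64_U K ν n w ∩ (pn (m + 1)).Y =
          (h64_U K ν n w ∩ (pn m).Y) ∪ (h64_U K ν n w ∩ Itv pn m) := by
        ext x
        constructor
        · rintro ⟨hx, h1⟩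
          by_cases h2 : x ∈ (pn m).Y
          · exact Or.inl ⟨hx, h2⟩
          · exact Or.inr ⟨hx, h1, h2⟩
        · rintro (⟨hx, h1⟩ | ⟨hx, h1⟩)
          · exact ⟨hx, h64_mono h (Nat.le_succ m) h1⟩
          · exact ⟨hx, h1.1⟩
      rw [this, h64_U_itv h hν' hw hN' hn]
      refine (h.bn (m + 1)).gr.un _ ?_ _ ?_
      · have h1 := (h64_ring h m).1 ih
        exact (h64_ring h (m + 1)).2 ⟨h1.1, h1.2.trans (h64_mono h (Nat.le_succ m))⟩
      · by_cases hm : n ≤ m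
        · rw [if_pos hm]
          exact (h64_ring h (m + 1)).2 ⟨(hN m (hn.trans hm)).1, fun x hx =>
            ((hN' m (hn.trans hm)) hx).1⟩
        · rw [if_neg hm]
          exact (h.bn (m + 1)).gr.emp
  · intro m hm
    rw [h64_set_U hν h hν' hw hN' hn, h64_U_itv h hν' hw hN' hn, if_pos hm, biUnion_singleton]

theorem limS_nbhd (h : LimSet α pn p xn pt) (hK : EK pn p xn pt K) (hν : InjOn ν (R0 p xn))
    (hν' : ∀ w ∈ R0 p xn, ν w ∉ p.Y) {w : FreeGroup I} (hw : w ∈ R0 p xn) :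
    ∃ N : ℕ, ∀ n ≥ N, {ν w} ∪ ⋃ m ∈ Ici n, K m w ∈ (limS pn p xn pt K ν).R :=
  h64_limS_nbhd h hK hν hν' hw

/-- members of the ring of `p` belong to the ring of the limit -/
theorem h64_old_mem (h : LimSet α pn p xn pt) (hν' : ∀ w ∈ R0 p xn, ν w ∉ p.Y) {O : Set Ω}
    (hO : O ∈ p.R) : O ∈ (limS pn p xn pt K ν).R := by
  have hOY := h.b.gr.sub O hO
  obtain ⟨n, hn⟩ := h.un.R O hO
  have hOn := (h.bn n).gr.sub O hn
  refine ⟨hOY.trans subset_union_left, ?_, ?_, n, ?_⟩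
  · rw [sdiff_eq_empty.2 hOY]
    exact finite_empty
  · intro m
    exact (h64_ring h m).2 ⟨(h.un.le m).cp.cut O hO, inter_subset_right⟩
  · intro m hm
    have h1 : O ∩ Itv pn m = ∅ := by
      rw [eq_empty_iff_forall_notMem]
      rintro x ⟨hx, hxm⟩
      exact hxm.2 (h64_mono h hm (hOn hx))
    have h2 : {w | w ∈ R0 p xn ∧ ν w ∈ O} = ∅ := by
      rw [eq_empty_iff_forall_notMem]
      rintro w ⟨hw, hwO⟩
      exact hν' w hw (hOY hwO)
    rw [h1, h2, biUnion_empty]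

theorem h64_r_old {x : Ω} (hx : x ∈ p.Y) : (limS pn p xn pt K ν).r x = p.r x := by
  simp only [limS, if_pos hx]

theorem h64_r_new (hν : InjOn ν (R0 p xn)) (hν' : ∀ w ∈ R0 p xn, ν w ∉ p.Y) {w : FreeGroup I}
    (hw : w ∈ R0 p xn) :
    (limS pn p xn pt K ν).r (ν w) = sInf {ξ | ∃ N : ℕ, ∀ n ≥ N, p.r (pt n w) < ξ} := by
  have h1 : ∃ w' ∈ R0 p xn, ν w' = ν w := ⟨w, hw, rfl⟩
  have h2 : h1.choose = w := hν h1.choose_spec.1 hw h1.choose_spec.2
  simp only [limS, if_neg (hν' w hw), dif_pos h1, h2]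

theorem h64_bdd (hα : Ind α) (h : LimSet α pn p xn pt) {w : FreeGroup I}
    (hw : w ∈ R0 p xn) : ∃ ξ < α, ∃ N : ℕ, ∀ n ≥ N, p.r (pt n w) < ξ := by
  rcases h.st w with ⟨N, β, hβ, hN⟩ | ⟨N, hN⟩
  · refine ⟨β + 1, hα.add β hβ 1 hα.one, N, fun n hn => ?_⟩
    obtain ⟨y, hy, hr⟩ := hN n hn
    rw [h.pt n w y hy]
    exact lt_of_le_of_lt hr (lt_add_one β)
  · obtain ⟨M, hM⟩ := hw
    obtain ⟨y, hy⟩ := hM (max N M) (le_max_right _ _)
    exact absurd hy (hN (max N M) (le_max_left _ _) y)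

theorem limS_rank (hα : Ind α) (h : LimSet α pn p xn pt) (hν : InjOn ν (R0 p xn))
    (hν' : ∀ w ∈ R0 p xn, ν w ∉ p.Y) {w : FreeGroup I} (hw : w ∈ R0 p xn) :
    (limS pn p xn pt K ν).r (ν w) < α ∧ ∀ β, (∃ N : ℕ, ∀ n ≥ N, p.r (pt n w) < β) →
      (limS pn p xn pt K ν).r (ν w) ≤ β := by
  rw [h64_r_new hν hν' hw]
  obtain ⟨ξ, hξ, hN⟩ := h64_bdd hα h hw
  exact ⟨lt_of_le_of_lt (csInf_le' hN) hξ, fun β hβ => csInf_le' hβ⟩

/-- the infimum is attained -/
theorem h64_attained (hα : Ind α) (h : LimSet α pn p xn pt) (hν : InjOn ν (R0 p xn))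
    (hν' : ∀ w ∈ R0 p xn, ν w ∉ p.Y) {w : FreeGroup I} (hw : w ∈ R0 p xn) :
    ∃ N : ℕ, ∀ n ≥ N, p.r (pt n w) < (limS pn p xn pt K ν).r (ν w) := by
  rw [h64_r_new hν hν' hw]
  obtain ⟨ξ, _, hN⟩ := h64_bdd hα h hw
  exact csInf_mem (s := {ξ | ∃ N : ℕ, ∀ n ≥ N, p.r (pt n w) < ξ}) ⟨ξ, hN⟩

/-- the property of having finitely many points of maximal rank -/
def h64_Top (r : Ω → Ordinal.{0}) (O : Set Ω) : Prop :=
  O.Nonempty → ∃ x ∈ O, (∀ y ∈ O, r y ≤ r x) ∧ {y | y ∈ O ∧ r y = r x}.Finite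

theorem h64_Top.union {r : Ω → Ordinal.{0}} {A B : Set Ω} (hA : h64_Top r A) (hB : h64_Top r B) :
    h64_Top r (A ∪ B) := by
  intro _
  rcases A.eq_empty_or_nonempty with rfl | hA'
  · rcases B.eq_empty_or_nonempty with rfl | hB'
    · simp at *
    · simpa using hB hB'
  · rcases B.eq_empty_or_nonempty with rfl | hB'
    · simpa using hA hA'
    · obtain ⟨x, hx, hx1, hx2⟩ := hA hA'
      obtain ⟨y, hy, hy1, hy2⟩ := hB hB'
      rcases lt_trichotomy (r x) (r y) with hlt | heq | hlt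
      · refine ⟨y, Or.inr hy, ?_, hy2.subset ?_⟩
        · rintro z (hz | hz)
          · exact (hx1 z hz).trans hlt.le
          · exact hy1 z hz
        · rintro z ⟨hz | hz, hr⟩
          · exact absurd (hx1 z hz) (by rw [hr]; exact not_le.2 hlt)
          · exact ⟨hz, hr⟩
      · refine ⟨x, Or.inl hx, ?_, (hx2.union hy2).subset ?_⟩
        · rintro z (hz | hz)
          · exact hx1 z hz
          · rw [heq]; exact hy1 z hz
        · rintro z ⟨hz | hz, hr⟩
          · exact Or.inl ⟨hz, hr⟩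
          · exact Or.inr ⟨hz, hr.trans heq⟩
      · refine ⟨x, Or.inl hx, ?_, hx2.subset ?_⟩
        · rintro z (hz | hz)
          · exact hx1 z hz
          · exact (hy1 z hz).trans hlt.le
        · rintro z ⟨hz | hz, hr⟩
          · exact ⟨hz, hr⟩
          · exact absurd (hy1 z hz) (by rw [hr]; exact not_le.2 hlt)

theorem h64_Top.biUnion {ι : Type*} {r : Ω → Ordinal.{0}} {F : ι → Set Ω} {s : Set ι}
    (hs : s.Finite) (hF : ∀ i ∈ s, h64_Top r (F i)) : h64_Top r (⋃ i ∈ s, F i) := by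
  induction s, hs using Set.Finite.induction_on with
  | empty => intro h; simp at h
  | insert _ _ ih =>
    rw [biUnion_insert]
    exact (hF _ (mem_insert _ _)).union (ih fun i hi => hF i (mem_insert_of_mem _ hi))

/-- the words of a member of the ring -/
theorem h64_words_finite (hν : InjOn ν (R0 p xn)) (hν' : ∀ w ∈ R0 p xn, ν w ∉ p.Y) {O : Set Ω}
    (hO : O ∈ (limS pn p xn pt K ν).R) : {w | w ∈ R0 p xn ∧ ν w ∈ O}.Finite := by
  refine Finite.of_finite_image (f := ν) (hO.2.1.subset ?_) (hν.mono fun w hw => hw.1)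
  rintro _ ⟨w, ⟨hw, hwO⟩, rfl⟩
  exact ⟨hwO, hν' w hw⟩

/-- finitely many eventual properties hold together -/
theorem h64_eventually_finite {ι : Type*} {s : Set ι} (hs : s.Finite) {Q : ι → ℕ → Prop}
    (hQ : ∀ i ∈ s, ∃ N : ℕ, ∀ n ≥ N, Q i n) : ∃ N : ℕ, ∀ n ≥ N, ∀ i ∈ s, Q i n := by
  classical
  choose! f hf using hQ
  refine ⟨hs.toFinset.sup f, fun n hn i hi => hf i hi n ?_⟩
  exact (Finset.le_sup (f := f) (hs.mem_toFinset.2 hi)).trans hn

/-- eventually the neighbourhoods of different new points are disjoint -/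
theorem h64_disj (hK : EK pn p xn pt K) {s s' : Set (FreeGroup I)}
    (hs : s.Finite) (hs' : s'.Finite) (hsR : s ⊆ R0 p xn) (hsR' : s' ⊆ R0 p xn) :
    ∃ N : ℕ, ∀ n ≥ N, ∀ w ∈ s, ∀ w' ∈ s', ∀ x ∈ K n w, x ∈ K n w' → w = w' := by
  obtain ⟨N, hN⟩ := h64_eventually_finite (hs.prod hs')
    (Q := fun z n => ∀ x ∈ K n z.1, x ∈ K n z.2 → z.1 = z.2) (by
      rintro ⟨w, w'⟩ ⟨hw, hw'⟩
      obtain ⟨N, hN⟩ := hK.e2 w (hsR hw) w' (hsR' hw') 0
      refine ⟨N, fun n hn x hx hx' => ?_⟩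
      have h1 := hN n hn x hx x hx' 1 (Acts.one x)
      exact (mul_inv_eq_one.1 h1.symm).symm)
  exact ⟨N, fun n hn w hw w' hw' => hN n hn (w, w') ⟨hw, hw'⟩⟩

theorem limS_gr (hα : Ind α) (h : LimSet α pn p xn pt) (hK : EK pn p xn pt K)
    (hν : InjOn ν (R0 p xn)) (hν' : ∀ w ∈ R0 p xn, ν w ∉ p.Y) :
    GR (limS pn p xn pt K ν).Y (limS pn p xn pt K ν).R (limS pn p xn pt K ν).r := by
  have hb := h.b.gr
  refine ⟨fun O hO => hO.1, ?_, ?_, ?_, ?_, ?_, ?_, ?_⟩
  · -- emp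
    exact h64_old_mem h hν' hb.emp
  · -- un
    rintro O ⟨hO1, hO2, hO3, n, hO4⟩ O' ⟨hO1', hO2', hO3', n', hO4'⟩
    refine ⟨union_subset hO1 hO1', ?_, ?_, max n n', ?_⟩
    · rw [union_sdiff_distrib]
      exact hO2.union hO2'
    · intro m
      rw [union_inter_distrib_right]
      exact (h.bn m).gr.un _ (hO3 m) _ (hO3' m)
    · intro m hm
      rw [union_inter_distrib_right, hO4 m ((le_max_left _ _).trans hm),
        hO4' m ((le_max_right _ _).trans hm), ← biUnion_union]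
      have e : {w | w ∈ R0 p xn ∧ ν w ∈ O} ∪ {w | w ∈ R0 p xn ∧ ν w ∈ O'} =
          {w | w ∈ R0 p xn ∧ ν w ∈ O ∪ O'} := by
        ext w
        simp only [mem_union, mem_ofPred_eq]
        tauto
      rw [e]
  · -- df
    rintro O hO O' hO'
    have hf := h64_words_finite hν hν' hO
    have hf' := h64_words_finite hν hν' hO'
    obtain ⟨N, hN⟩ := h64_disj hK hf hf' (fun w hw => hw.1) (fun w hw => hw.1)
    obtain ⟨hO1, hO2, hO3, n, hO4⟩ := hO
    obtain ⟨hO1', hO2', hO3', n', hO4'⟩ := hO'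
    refine ⟨sdiff_subset.trans hO1, ?_, ?_, max N (max n n'), ?_⟩
    · exact hO2.subset fun x hx => ⟨hx.1.1, hx.2⟩
    · intro m
      have : (O \ O') ∩ (pn m).Y = (O ∩ (pn m).Y) \ (O' ∩ (pn m).Y) := by
        ext x
        simp only [mem_inter_iff, mem_sdiff]
        tauto
      rw [this]
      exact (h.bn m).gr.df _ (hO3 m) _ (hO3' m)
    · intro m hm
      have hmN : N ≤ m := (le_max_left _ _).trans hm
      have hmn : n ≤ m := (le_max_left _ _).trans ((le_max_right _ _).trans hm)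
      have hmn' : n' ≤ m := (le_max_right _ _).trans ((le_max_right _ _).trans hm)
      have e1 := hO4 m hmn
      have e2 := hO4' m hmn'
      ext x
      constructor
      · rintro ⟨⟨hx, hx'⟩, hxm⟩
        have h1 : x ∈ O ∩ Itv pn m := ⟨hx, hxm⟩
        rw [e1] at h1
        obtain ⟨w, hw, hxw⟩ := mem_iUnion₂.1 h1
        refine mem_iUnion₂.2 ⟨w, ⟨hw.1, hw.2, fun hwO' => hx' ?_⟩, hxw⟩
        have h2 : x ∈ O' ∩ Itv pn m := by
          rw [e2]
          exact mem_iUnion₂.2 ⟨w, ⟨hw.1, hwO'⟩, hxw⟩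
        exact h2.1
      · intro hx
        obtain ⟨w, hw, hxw⟩ := mem_iUnion₂.1 hx
        have h1 : x ∈ O ∩ Itv pn m := by
          rw [e1]
          exact mem_iUnion₂.2 ⟨w, ⟨hw.1, hw.2.1⟩, hxw⟩
        refine ⟨⟨h1.1, fun hxO' => ?_⟩, h1.2⟩
        have h2 : x ∈ O' ∩ Itv pn m := ⟨hxO', h1.2⟩
        rw [e2] at h2
        obtain ⟨w', hw', hxw'⟩ := mem_iUnion₂.1 h2
        have h3 := hN m hmN w ⟨hw.1, hw.2.1⟩ w' hw' x hxw hxw'
        subst h3
        exact hw.2.2 hw'.2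
  · -- cov
    rintro x (hx | ⟨w, hw, rfl⟩)
    · obtain ⟨O, hO, hxO⟩ := hb.cov x hx
      exact ⟨O, h64_old_mem h hν' hO, hxO⟩
    · obtain ⟨N, hN⟩ := h64_limS_nbhd h hK hν hν' hw
      exact ⟨_, hN N le_rfl, h64_mem_U.2 (Or.inl rfl)⟩
  · -- sep
    rintro x (hx | ⟨w, hw, rfl⟩) y hy hxy
    · by_cases hyp : y ∈ p.Y
      · obtain ⟨O, hO, hxO, hyO⟩ := hb.sep x hx y hyp hxy
        exact ⟨O, h64_old_mem h hν' hO, hxO, hyO⟩
      · obtain ⟨O, hO, hxO⟩ := hb.cov x hx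
        exact ⟨O, h64_old_mem h hν' hO, hxO, fun hyO => hyp (hb.sub O hO hyO)⟩
    · obtain ⟨N, hN⟩ := h64_limS_nbhd h hK hν hν' hw
      obtain ⟨N', hN'⟩ := hK.e1 w hw
      by_cases hyp : y ∈ p.Y
      · obtain ⟨k, hk⟩ := h64_exists_stage h hyp
        refine ⟨_, hN (max N (max N' k)) (le_max_left _ _), h64_mem_U.2 (Or.inl rfl), fun hyU => ?_⟩
        rcases h64_mem_U.1 hyU with he | ⟨m, hm, hym⟩
        · exact hxy he.symm
        · have h1 : N' ≤ m := (le_max_left _ _).trans ((le_max_right _ _).trans hm)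
          have h2 : k ≤ m := (le_max_right _ _).trans ((le_max_right _ _).trans hm)
          have := h64_itv_disj h ((hN' m h1).2.1 hym) hk
          omega
      · refine ⟨_, hN (max N N') (le_max_left _ _), h64_mem_U.2 (Or.inl rfl), fun hyU => ?_⟩
        rcases h64_mem_U.1 hyU with he | ⟨m, hm, hym⟩
        · exact hxy he.symm
        · exact hyp (h64_itv_sub h m ((hN' m ((le_max_right _ _).trans hm)).2.1 hym))
  · -- top
    intro O hO hne
    have hf := h64_words_finite hν hν' hO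
    -- eventual properties of the words
    obtain ⟨N, hN⟩ := h64_eventually_finite hf
      (Q := fun w n => (K n w ⊆ Itv pn n ∧ ∀ y ∈ K n w, p.r y ≤ p.r (pt n w)) ∧
        p.r (pt n w) < (limS pn p xn pt K ν).r (ν w)) (by
        rintro w ⟨hw, _⟩
        obtain ⟨N1, hN1⟩ := hK.e1 w hw
        obtain ⟨N2, hN2⟩ := h64_attained (K := K) hα h hν hν' hw
        refine ⟨max N1 N2, fun n hn => ⟨⟨(hN1 n ((le_max_left _ _).trans hn)).2.1, ?_⟩,
          hN2 n ((le_max_right _ _).trans hn)⟩⟩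
        intro y hy
        by_cases hyp : y = pt n w
        · rw [hyp]
        · exact ((hN1 n ((le_max_left _ _).trans hn)).2.2.2 y hy hyp).le)
    obtain ⟨hO1, hO2, hO3, n, hO4⟩ := hO
    set M := max N n with hM
    -- decomposition
    have hdec : O = (O ∩ (pn M).Y) ∪ ⋃ w ∈ {w | w ∈ R0 p xn ∧ ν w ∈ O}, h64_U K ν M w := by
      ext x
      constructor
      · intro hx
        rcases hO1 hx with hxp | ⟨w, hw, rfl⟩
        · by_cases hxM : x ∈ (pn M).Y
          · exact Or.inl ⟨hx, hxM⟩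
          · right
            -- the first stage
            obtain ⟨k, hk⟩ := h64_exists_stage h hxp
            have hex : ∃ k, x ∈ (pn k).Y := ⟨k, hk⟩
            classical
            have hk1 := Nat.find_spec hex
            have hk2 : M < Nat.find hex := by
              by_contra hcon
              exact hxM (h64_mono h (not_lt.1 hcon) hk1)
            obtain ⟨j, hj⟩ : ∃ j, Nat.find hex = j + 1 := ⟨Nat.find hex - 1, by omega⟩
            have hxj : x ∈ Itv pn j := by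
              refine ⟨by rw [← hj]; exact hk1, fun hxj => ?_⟩
              have := Nat.find_min' hex hxj
              omega
            have hMj : M ≤ j := by omega
            have h1 : x ∈ O ∩ Itv pn j := ⟨hx, hxj⟩
            rw [hO4 j ((le_max_right _ _).trans hMj)] at h1
            obtain ⟨w, hw, hxw⟩ := mem_iUnion₂.1 h1
            exact mem_iUnion₂.2 ⟨w, hw, h64_mem_U.2 (Or.inr ⟨j, hMj, hxw⟩)⟩
        · exact Or.inr (mem_iUnion₂.2 ⟨w, ⟨hw, hx⟩, h64_mem_U.2 (Or.inl rfl)⟩)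
      · rintro (hx | hx)
        · exact hx.1
        · obtain ⟨w, hw, hxw⟩ := mem_iUnion₂.1 hx
          rcases h64_mem_U.1 hxw with rfl | ⟨m, hm, hxm⟩
          · exact hw.2
          · have h1 : x ∈ O ∩ Itv pn m := by
              rw [hO4 m ((le_max_right _ _).trans hm)]
              exact mem_iUnion₂.2 ⟨w, hw, hxm⟩
            exact h1.1
    have htop : h64_Top (limS pn p xn pt K ν).r O := by
      rw [hdec]
      refine h64_Top.union ?_ (h64_Top.biUnion hf ?_)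
      · intro hne'
        obtain ⟨x, hx, hx1, hx2⟩ := (h.bn M).gr.top _ (hO3 M) hne'
        have hr : ∀ y ∈ O ∩ (pn M).Y, (limS pn p xn pt K ν).r y = (pn M).r y := by
          intro y hy
          rw [h64_r_old (h64_sub h M hy.2)]
          exact (h.un.le M).cp.rk y hy.2
        refine ⟨x, hx, fun y hy => ?_, hx2.subset ?_⟩
        · rw [hr y hy, hr x hx]
          exact hx1 y hy
        · rintro y ⟨hy, hye⟩
          rw [hr y hy, hr x hx] at hye
          exact ⟨hy, hye⟩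
      · rintro w hw
        have hlt : ∀ y ∈ h64_U K ν M w, y ≠ ν w →
            (limS pn p xn pt K ν).r y < (limS pn p xn pt K ν).r (ν w) := by
          intro y hy hyw
          rcases h64_mem_U.1 hy with he | ⟨m, hm, hym⟩
          · exact absurd he hyw
          · have h1 := hN m ((le_max_left _ _).trans hm) w hw
            rw [h64_r_old (h64_itv_sub h m (h1.1.1 hym))]
            exact lt_of_le_of_lt (h1.1.2 y hym) h1.2
        intro _
        refine ⟨ν w, h64_mem_U.2 (Or.inl rfl), fun y hy => ?_, (finite_singleton (ν w)).subset ?_⟩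
        · by_cases hyw : y = ν w
          · rw [hyw]
          · exact (hlt y hy hyw).le
        · rintro y ⟨hy, hye⟩
          by_contra hyw
          exact absurd hye (hlt y hy hyw).ne
    exact htop hne
  · -- ex
    rintro O ⟨hO1, hO2, hO3, n, hO4⟩ x hx β hβ
    rcases hO1 hx with hxp | ⟨w, hw, rfl⟩
    · obtain ⟨m, hm⟩ := h64_exists_stage h hxp
      rw [h64_r_old hxp, (h.un.le m).cp.rk x hm] at hβ
      obtain ⟨y, hy, hyx, hβy⟩ := (h.bn m).gr.ex _ (hO3 m) x ⟨hx, hm⟩ β hβ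
      refine ⟨y, hy.1, hyx, ?_⟩
      rw [h64_r_old (h64_sub h m hy.2), (h.un.le m).cp.rk y hy.2]
      exact hβy
    · rw [h64_r_new hν hν' hw] at hβ
      obtain ⟨N, hN⟩ := hK.e1 w hw
      have h1 : ¬ ∃ N : ℕ, ∀ n ≥ N, p.r (pt n w) < β := fun hcon =>
        absurd (csInf_le' (s := {ξ | ∃ N : ℕ, ∀ n ≥ N, p.r (pt n w) < ξ}) hcon) (not_le.2 hβ)
      push Not at h1
      obtain ⟨m, hm, hβm⟩ := h1 (max N n)
      have hpt := (hN m ((le_max_left _ _).trans hm))
      have hmem : pt m w ∈ O ∩ Itv pn m := by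
        rw [hO4 m ((le_max_right _ _).trans hm)]
        exact mem_iUnion₂.2 ⟨w, ⟨hw, hx⟩, hpt.2.2.1⟩
      refine ⟨pt m w, hmem.1, fun he => ?_, ?_⟩
      · exact hν' w hw (he ▸ h64_itv_sub h m hmem.2)
      · rw [h64_r_old (h64_itv_sub h m hmem.2)]
        exact hβm

end J3

end Pool.Agent.Helper33.QB
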