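import Pool.Agent.Helper33.QB.Defs

/-!
# Project QB: definitions of the sections G, H and N of the specification
-/

set_option autoImplicit false

namespace Pool.Agent.Helper33.QB

open Set

universe v

variable {Ω : Type} {I : Type v}

/-- Closure under unions of decreasing sequences. -/
def SC (P : Set (Cnd Ω I)) : Prop :=
  ∀ pn : ℕ → Cnd Ω I, (∀ n, pn n ∈ P) → (∀ n, Le (pn (n + 1)) (pn n)) → ∃ q ∈ P, IsUn q pn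

/-- `T` is a name for a subset of the space. -/
def NmT (P : Set (Cnd Ω I)) (T : Cnd Ω I → Set Ω) : Prop :=
  (∀ p ∈ P, T p ⊆ p.Y) ∧ ∀ p ∈ P, ∀ q ∈ P, Le q p → T p ⊆ T q

/-- Below `p`, the name `T` denotes an unbounded set. -/
def Unb (P : Set (Cnd Ω I)) (T : Cnd Ω I → Set Ω) (p : Cnd Ω I) : Prop :=
  ∀ q ∈ P, Le q p → ∃ q' ∈ P, Le q' q ∧ ∃ x ∈ T q', x ∉ q.Y

/-- The derived sets of a name. -/
def LimT (T : Cnd Ω I → Set Ω) (ρ : Ordinal.{0}) (q : Cnd Ω I) : Set Ω :=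
  {x | x ∈ q.Y ∧ ∀ E, Cl q.Y q.R E → T q ⊆ E → ∀ r', GR E (tr q.R E) r' → x ∈ E ∧ ρ ≤ r' x}

/-- The limit lemma for `P`. -/
def LimSpec (α : Ordinal.{0}) (P : Set (Cnd Ω I)) : Prop :=
  ∀ (pn : ℕ → Cnd Ω I) (xn : ℕ → Ω), (∀ n, pn n ∈ P) → (∀ n, Le (pn (n + 1)) (pn n)) →
    (∀ n, xn n ∈ (pn (n + 1)).Y ∧ xn n ∉ (pn n).Y) →
    (∀ w : FreeGroup I,
      (∃ N : ℕ, ∃ β : Ordinal.{0}, β < α ∧ ∀ n ≥ N, ∃ y, Acts (Full (pn (n + 1))) w (xn n) y ∧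
        (pn (n + 1)).r y ≤ β) ∨
      ∃ N : ℕ, ∀ n ≥ N, ∀ y, ¬ Acts (Full (pn (n + 1))) w (xn n) y) →
    ∃ q ∈ P, (∀ n, Le q (pn n)) ∧ ∃ x ∈ q.Y, (∀ n, x ∉ (pn n).Y) ∧
      (∀ K ∈ q.R, x ∈ K → ∃ N : ℕ, ∀ n ≥ N, xn n ∈ K) ∧
      ∀ (w : FreeGroup I) (β : Ordinal.{0}),
        (∃ N : ℕ, ∀ n ≥ N, ∃ y, Acts (Full (pn (n + 1))) w (xn n) y ∧ (pn (n + 1)).r y < β) →
        ∃ y, Acts (Full q) w x y ∧ q.r y ≤ β

section ExtSpec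

variable [LinearOrder I] [WellFoundedLT I]

/-- The extension lemma for the letters below `i`. -/
def ExtSpec (α : Ordinal.{0}) (b : I → NmD Ω I) (i : I) : Prop :=
  ∀ (pn : ℕ → Cnd Ω I) (s : Cnd Ω I), (∀ n, pn n ∈ VT α b) → (∀ n, Le (pn (n + 1)) (pn n)) →
    Semi α pn s → ∀ j ≤ i, ∀ r ∈ V α b j, Bel pn s j r → ∀ K ∈ r.R, ∃ q ∈ V α b i,
      Bel pn s i q ∧ Le (res q j) r ∧
      ∀ x ∈ K, ∀ y ∈ K, ∀ g, Acts (BG pn s i q) g x y → Acts (BG pn s j r) g x y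

end ExtSpec

end Pool.Agent.Helper33.QB
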