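import Pool.Agent.Helper84.QB.Acts
import Pool.Agent.Helper61.QB.Order
import Pool.Agent.Helper64.QB.NmDefs

/-!
# Project QB, module G: the pigeonhole principle for names
-/

set_option autoImplicit false

namespace Pool.Agent.Helper33.QB

open Set

universe v

variable {Ω : Type} {I : Type v} {α : Ordinal.{0}}

/-- the points of `T` where `w` is defined with a value of rank at most `β` -/
def h64_Tb (T : Cnd Ω I → Set Ω) (w : FreeGroup I) (β : Ordinal.{0}) (q : Cnd Ω I) : Set Ω :=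
  {x | x ∈ T q ∧ ∃ y, Acts (Full q) w x y ∧ q.r y ≤ β}

/-- the points of `T` where `w` will never be defined -/
def h64_Tu (P : Set (Cnd Ω I)) (T : Cnd Ω I → Set Ω) (w : FreeGroup I) (q : Cnd Ω I) : Set Ω :=
  {x | x ∈ T q ∧ ∀ q' ∈ P, Le q' q → ∀ y, ¬ Acts (Full q') w x y}

theorem h64_full_stay {p : Cnd Ω I} (hp : Basic α p) :
    ∀ i x y, Full p i x y → (x ∈ p.Y ↔ y ∈ p.Y) := by
  rintro i x y ⟨hi, hx, rfl⟩
  exact ⟨fun _ => (hp.ce i hi).maps x hx, fun _ => hx⟩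

theorem h64_nm_Tb {P : Set (Cnd Ω I)} (hb : ∀ p ∈ P, Basic α p) {T : Cnd Ω I → Set Ω}
    (hT : NmT P T) (w : FreeGroup I) (β : Ordinal.{0}) : NmT P (h64_Tb T w β) := by
  refine ⟨fun p hp x hx => hT.1 p hp hx.1, ?_⟩
  rintro p hp q hq hle x ⟨hx, y, hy, hr⟩
  refine ⟨hT.2 p hp q hq hle hx, y, Acts.mono (Le.full hle) hy, ?_⟩
  have hyY : y ∈ p.Y := (Acts.stay (h64_full_stay (hb p hp)) hy).1 (hT.1 p hp hx)
  rw [hle.cp.rk y hyY]
  exact hr

theorem h64_nm_Tu {P : Set (Cnd Ω I)} (hb : ∀ p ∈ P, Basic α p) {T : Cnd Ω I → Set Ω}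
    (hT : NmT P T) (w : FreeGroup I) : NmT P (h64_Tu P T w) := by
  refine ⟨fun p hp x hx => hT.1 p hp hx.1, ?_⟩
  rintro p hp q hq hle x ⟨hx, hn⟩
  exact ⟨hT.2 p hp q hq hle hx, fun q' hq' hle' => hn q' hq'
    (Le.trans' (hb q' hq') (hb q hq) hle' hle)⟩

theorem pigeon (hα : Ind α) {P : Set (Cnd Ω I)} (hb : ∀ p ∈ P, Basic α p) (hsc : SC P)
    {T : Cnd Ω I → Set Ω} (hT : NmT P T) {p : Cnd Ω I} (hp : p ∈ P) (hu : Unb P T p)
    (w : FreeGroup I) :
    ∃ p' ∈ P, Le p' p ∧ ∃ T' : Cnd Ω I → Set Ω, NmT P T' ∧ (∀ q, T' q ⊆ T q) ∧ Unb P T' p' ∧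
      ((∃ β, β < α ∧ ∀ q ∈ P, ∀ x ∈ T' q, ∃ y, Acts (Full q) w x y ∧ q.r y ≤ β) ∨
        ∀ q ∈ P, ∀ x ∈ T' q, ∀ y, ¬ Acts (Full q) w x y) := by
  classical
  by_contra hcon
  -- no name of the family is unbounded below a condition below `p`
  have hnb : ∀ p' ∈ P, Le p' p → ∀ β < α, ¬ Unb P (h64_Tb T w β) p' := by
    intro p' hp' hle β hβ hun
    exact hcon ⟨p', hp', hle, h64_Tb T w β, h64_nm_Tb hb hT w β, fun q x hx => hx.1, hun,
      Or.inl ⟨β, hβ, fun q _ x hx => hx.2⟩⟩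
  have hnu : ∀ p' ∈ P, Le p' p → ¬ Unb P (h64_Tu P T w) p' := by
    intro p' hp' hle hun
    exact hcon ⟨p', hp', hle, h64_Tu P T w, h64_nm_Tu hb hT w, fun q x hx => hx.1, hun,
      Or.inr fun q hq x hx => hx.2 q hq (Le.refl' (hb q hq).gr)⟩
  -- enumeration of the ranks
  have hne : (Iio α).Nonempty := ⟨0, lt_trans zero_lt_one hα.one⟩
  obtain ⟨e, he⟩ := hα.ctb.exists_eq_range hne
  have heα : ∀ n, e n < α := fun n => by
    have : e n ∈ Iio α := by rw [he]; exact mem_range_self n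
    exact this
  let F : ℕ → Cnd Ω I → Set Ω := fun n => if n = 0 then h64_Tu P T w else h64_Tb T w (e (n - 1))
  have hF : ∀ n, ∀ p' ∈ P, Le p' p → ¬ Unb P (F n) p' := by
    intro n p' hp' hle
    by_cases hn : n = 0
    · simp only [F, hn, if_true]
      exact hnu p' hp' hle
    · simp only [F, if_neg hn]
      exact hnb p' hp' hle _ (heα _)
  have hstep : ∀ (n : ℕ) (a : {q : Cnd Ω I // q ∈ P ∧ Le q p}),
      ∃ c : {q : Cnd Ω I // q ∈ P ∧ Le q p}, Le c.1 a.1 ∧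
        ∀ q' ∈ P, Le q' c.1 → ∀ x ∈ F n q', x ∈ c.1.Y := by
    intro n a
    have h1 := hF n a.1 a.2.1 a.2.2
    unfold Unb at h1
    push Not at h1
    obtain ⟨q, hq, hle, hk⟩ := h1
    exact ⟨⟨q, hq, Le.trans' (hb q hq) (hb a.1 a.2.1) hle a.2.2⟩, hle, hk⟩
  choose next hnext using hstep
  let sq : ℕ → {q : Cnd Ω I // q ∈ P ∧ Le q p} := fun n =>
    Nat.rec ⟨p, hp, Le.refl' (hb p hp).gr⟩ (fun n a => next n a) n
  have hsq : ∀ n, sq (n + 1) = next n (sq n) := fun n => rfl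
  obtain ⟨q, hq, hun⟩ := hsc (fun n => (sq n).1) (fun n => (sq n).2.1) (fun n => by
    rw [hsq n]; exact (hnext n (sq n)).1)
  have hqp : Le q p := hun.le 0
  obtain ⟨q', hq', hle', x, hx, hxq⟩ := hu q hq hqp
  -- a killed name gives a contradiction
  have hkill : ∀ n, ∀ q'' ∈ P, Le q'' q → x ∈ F n q'' → False := by
    intro n q'' hq'' hle'' hxF
    have h1 : x ∈ (sq (n + 1)).1.Y := by
      rw [hsq n]
      refine (hnext n (sq n)).2 q'' hq'' ?_ x hxF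
      have := hun.le (n + 1)
      simp only [hsq n] at this
      exact Le.trans' (hb q'' hq'') (hb q hq) hle'' this
    exact hxq ((hun.le (n + 1)).cp.sub h1)
  by_cases hd : ∃ q'' ∈ P, Le q'' q' ∧ ∃ y, Acts (Full q'') w x y
  · obtain ⟨q'', hq'', hle'', y, hy⟩ := hd
    have hr : q''.r y < α := (hb q'' hq'').ra y
    have : q''.r y ∈ range e := by rw [← he]; exact hr
    obtain ⟨n, hn⟩ := this
    refine hkill (n + 1) q'' hq'' (Le.trans' (hb q'' hq'') (hb q' hq') hle'' hle') ?_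
    simp only [F, if_neg (Nat.succ_ne_zero n), Nat.add_sub_cancel]
    exact ⟨hT.2 q' hq' q'' hq'' hle'' hx, y, hy, hn.ge⟩
  · push Not at hd
    refine hkill 0 q' hq' hle' ?_
    simp only [F, if_true]
    exact ⟨hx, fun q'' hq'' hle'' y => hd q'' hq'' hle'' y⟩

end Pool.Agent.Helper33.QB
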